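import Mathlib
import Pool.Agent.H32Lab.Final

set_option autoImplicit false

namespace Pool.Agent.Results.MP_01cc3a_co.BoundedColours

/-- For every `n` there is a norm on `ℝ^n` whose unit ball is a polytope, such that for every
infinite set `M` the space has a colouring with 72 colours without monochromatic isometric copy
of `M`. -/
theorem result (n : ℕ) :
    ∃ (k : ℕ) (a : Fin k → Fin n → ℝ) (N : (Fin n → ℝ) → ℝ),
      (∀ x : Fin n → ℝ, N x = ⨆ i : Fin k, |∑ j : Fin n, a i j * x j|) ∧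
      (∀ x : Fin n → ℝ, N x = 0 ↔ x = 0) ∧
      (∀ x y : Fin n → ℝ, N (x + y) ≤ N x + N y) ∧
      (∀ (r : ℝ) (x : Fin n → ℝ), N (fun j => r * x j) = |r| * N x) ∧
      ∀ M : Set (Fin n → ℝ), M.Infinite → ∃ c : (Fin n → ℝ) → Fin 72,
        ∀ f : (Fin n → ℝ) → (Fin n → ℝ),
          (∀ x ∈ M, ∀ y ∈ M, N (f x - f y) = N (x - y)) →
          ∃ x ∈ M, ∃ y ∈ M, c (f x) ≠ c (f y) := by
  obtain ⟨k, a, hzero, hcol⟩ := H32Lab.exists_norm n
  have hbdd : ∀ x : Fin n → ℝ,
      BddAbove (Set.range fun i : Fin k => |∑ j : Fin n, a i j * x j|) :=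
    fun x => (Set.finite_range _).bddAbove
  refine ⟨k, a, H32Lab.nrm a, fun x => rfl, ?_, ?_, ?_, ?_⟩
  · intro x
    refine ⟨hzero x, ?_⟩
    rintro rfl
    show (⨆ i : Fin k, |∑ j : Fin n, a i j * (0 : Fin n → ℝ) j|) = 0
    simp
  · intro x y
    show (⨆ i : Fin k, |∑ j : Fin n, a i j * (x + y) j|) ≤
      (⨆ i : Fin k, |∑ j : Fin n, a i j * x j|) + ⨆ i : Fin k, |∑ j : Fin n, a i j * y j|
    rcases isEmpty_or_nonempty (Fin k) with h | h
    · simp
    · apply ciSup_le
      intro i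
      have h1 : ∑ j : Fin n, a i j * (x + y) j
          = (∑ j : Fin n, a i j * x j) + ∑ j : Fin n, a i j * y j := by
        rw [← Finset.sum_add_distrib]
        refine Finset.sum_congr rfl fun j _ => ?_
        simp only [Pi.add_apply]
        ring
      rw [h1]
      refine (abs_add_le _ _).trans ?_
      exact add_le_add (le_ciSup (hbdd x) i) (le_ciSup (hbdd y) i)
  · intro r x
    show (⨆ i : Fin k, |∑ j : Fin n, a i j * (r * x j)|) =
      |r| * ⨆ i : Fin k, |∑ j : Fin n, a i j * x j|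
    rw [Real.mul_iSup_of_nonneg (abs_nonneg r)]
    congr 1
    funext i
    rw [← abs_mul, Finset.mul_sum]
    congr 1
    refine Finset.sum_congr rfl fun j _ => ?_
    ring
  · intro M hM
    obtain ⟨c, hc⟩ := hcol M hM
    refine ⟨c, fun f hf => ?_⟩
    by_contra hcon
    push Not at hcon
    obtain ⟨x0, hx0⟩ := hM.nonempty
    exact hc f hf ⟨c (f x0), fun x hx => hcon x hx x0 hx0⟩

end Pool.Agent.Results.MP_01cc3a_co.BoundedColours
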